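import Mathlib
import Pool.Agent.H48.WTower

set_option autoImplicit false

namespace Pool.Agent.Results.MP_2416ca_nt.Yes

/-- `φ` is weakly isotropic: `m × φ = φ ⊥ ⋯ ⊥ φ` (`m` copies) is isotropic for some `m`. -/
def WeaklyIsotropic {K : Type} [Field K] {n : ℕ} (φ : QuadraticForm K (Fin n → K)) : Prop :=
  ∃ m : ℕ, ¬ (QuadraticMap.pi (fun _ : Fin m => φ)).Anisotropic

/-- `ψ` is a subform of `φ`: `φ` is isometric to `ψ ⊥ χ` for some form `χ`. -/
def IsSubform {K : Type} [Field K] {n m : ℕ} (ψ : QuadraticForm K (Fin m → K))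
    (φ : QuadraticForm K (Fin n → K)) : Prop :=
  ∃ (l : ℕ) (χ : QuadraticForm K (Fin l → K)), QuadraticMap.Equivalent φ (ψ.prod χ)

/-- `φ` is a regular form that is weakly isotropic while no proper subform of it is. -/
def MinimalWeaklyIsotropic {K : Type} [Field K] {n : ℕ} (φ : QuadraticForm K (Fin n → K)) : Prop :=
  (QuadraticMap.polarBilin φ).Nondegenerate ∧ WeaklyIsotropic φ ∧
    ∀ (m : ℕ) (ψ : QuadraticForm K (Fin m → K)), m < n → IsSubform ψ φ → ¬ WeaklyIsotropic ψ

/-- The `w`-invariant: the supremum of the dimensions of minimal weakly isotropic forms. -/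
noncomputable def wInv (K : Type) [Field K] : ℕ∞ :=
  ⨆ (n : ℕ) (φ : QuadraticForm K (Fin n → K)) (_ : MinimalWeaklyIsotropic φ), (n : ℕ∞)

open H48 in
/-- There is a field of characteristic not `2` with `w(K) > 3`. -/
theorem result : ∃ (K : Type) (_ : Field K), ringChar K ≠ 2 ∧ 3 < wInv K := by
  obtain ⟨K, _, Y, Y', y, t, hr, hN, h1, h2⟩ := WTower.exists_field
  have : IsSemireal K := IsSemireal.of_not_isSumSq_neg_one hr
  have hy : y ≠ 0 := by
    rintro rfl
    exact h1 (by rw [add_zero]; exact IsSumSq.one)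
  have ht : t ≠ 0 := by
    rintro rfl
    exact h2 (by rw [sub_zero]; exact IsSumSq.one)
  have hy1 : 1 + y ≠ 0 := fun h => h1 (by rw [h]; exact IsSumSq.zero)
  have ht1 : 1 - t ≠ 0 := fun h => h2 (by rw [h]; exact IsSumSq.zero)
  have hY : 1 + Y ^ 2 ≠ 0 := fun h =>
    one_ne_zero (WSos.add_zero_left hr IsSumSq.one (WSos.sos_sq _) h)
  have hY' : 1 + Y' ^ 2 ≠ 0 := fun h =>
    one_ne_zero (WSos.add_zero_left hr IsSumSq.one (WSos.sos_sq _) h)
  refine ⟨K, inferInstance, by rw [ringChar.eq_zero]; norm_num, ?_⟩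
  have hc : ∀ i, WTop.coef Y Y' y t i ≠ 0 := by
    intro i
    fin_cases i <;> simp [WTop.coef, hy, ht, hy1, ht1, hY, hY']
  have key : MinimalWeaklyIsotropic (QuadraticMap.weightedSumSquares K (WTop.coef Y Y' y t)) := by
    refine ⟨?_, ⟨6, ?_⟩, ?_⟩
    · let := invertibleOfNonzero (two_ne_zero : (2 : K) ≠ 0)
      rw [QuadraticMap.nondegenerate_polar_iff, QuadraticMap.nondegenerate_iff_radical_eq_bot,
        QuadraticForm.radical_weightedSumSquares, eq_bot_iff]
      intro v hv
      rw [Pi.mem_spanSubset_iff] at hv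
      rw [Submodule.mem_bot]
      funext i
      exact hv i (hc i)
    · rw [QuadraticMap.not_anisotropic_iff_exists]
      refine ⟨![![1, 1, 1, 1], ![0, 1, Y, 1], ![0, 1, 0, 1], ![0, 0, 0, Y'], ![0, 0, 0, Y'],
        ![0, 0, 0, Y']], ?_, ?_⟩
      · intro h
        have := congrFun (congrFun h 0) 0
        simp at this
      · simp [QuadraticMap.pi_apply, QuadraticMap.weightedSumSquares_apply, Fin.sum_univ_succ,
          WTop.coef]
        field_simp
        ring
    · rintro m ψ hm ⟨l, χ, ⟨e⟩⟩ ⟨n, hn⟩
      apply hn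
      intro v hv
      let f : (Fin m → K) →ₗ[K] (Fin 4 → K) :=
        e.symm.toLinearEquiv.toLinearMap ∘ₗ LinearMap.inl K _ _
      have hf : ∀ u, QuadraticMap.weightedSumSquares K (WTop.coef Y Y' y t) (f u) = ψ u := by
        intro u
        simp [f]
      have hlt : LinearMap.range f < ⊤ := by
        apply Submodule.lt_top_of_finrank_lt_finrank
        have := LinearMap.finrank_range_le f
        simp only [Module.finrank_fintype_fun_eq_card, Fintype.card_fin] at this ⊢
        omega
      obtain ⟨g, hg0, hg⟩ := Submodule.exists_le_ker_of_lt_top _ hlt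
      have hx := WTop.top hr Y Y' y t hN h1 h2 (fun j => f (v j)) (fun i => g (Pi.single i 1))
        (by
          intro h
          apply hg0
          ext i
          simpa using congrFun h i)
        (by
          intro j
          have h3 : g (f (v j)) = 0 := hg (LinearMap.mem_range_self f (v j))
          rw [← h3, LinearMap.pi_apply_eq_sum_univ g]
          refine Finset.sum_congr rfl fun i _ => ?_
          rw [smul_eq_mul, mul_comm]
          congr 2
          ext j
          simp [Pi.single_apply, eq_comm])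
        (by
          rw [QuadraticMap.pi_apply] at hv
          rw [← hv]
          refine Finset.sum_congr rfl fun j _ => ?_
          rw [← hf, QuadraticMap.weightedSumSquares_apply]
          rfl)
      funext j
      have h4 : f (v j) = 0 := congrFun hx j
      simpa [f] using h4
  refine lt_of_lt_of_le (show (3 : ℕ∞) < ((4 : ℕ) : ℕ∞) by norm_num) ?_
  exact le_iSup_of_le 4 (le_iSup_of_le _ (le_iSup_of_le key le_rfl))

end Pool.Agent.Results.MP_2416ca_nt.Yes
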